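import Pool.Agent.Helper79_HMC.Stmts

/-!
# HMC, module THA: Hamiltonian cycles and insertion of a hexagon (helper75)
-/

set_option autoImplicit false

namespace Pool.Agent.HMC.H75

open Pool.Agent.HMC CG

/-! ### Hamiltonian cycles as functions (the missing colour) -/

section Missing

variable {X : Type} (C : CG X)

theorem a_ne (i : Fin 3) (x : X) : C.a i x ≠ x := by
  intro h
  have := C.hcol i x
  rw [h] at this
  cases hx : C.col x <;> simp [hx] at this

/-- `m` is the missing colour -/
def IsM (m : X → Fin 3) : Prop := ∀ i y, m (C.a i y) = i ↔ m y = i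

/-- the complement -/
def sub (m : X → Fin 3) : SimpleGraph X where
  Adj y z := ∃ i, C.a i y = z ∧ m y ≠ i ∧ m z ≠ i
  symm := ⟨by
    rintro y z ⟨i, rfl, h1, h2⟩
    exact ⟨i, C.inv i y, h2, h1⟩⟩
  loopless := ⟨by
    rintro y ⟨i, h, -, -⟩
    exact a_ne C i y h⟩

theorem sub_adj (m : X → Fin 3) (y z : X) :
    (sub C m).Adj y z ↔ ∃ i, C.a i y = z ∧ m y ≠ i ∧ m z ≠ i := Iff.rfl

theorem sub_adj_a {m : X → Fin 3} (hm : IsM C m) (i : Fin 3) (y : X) :
    (sub C m).Adj y (C.a i y) ↔ m y ≠ i := by
  constructor
  · rintro ⟨j, h1, h2, -⟩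
    by_cases hij : j = i
    · rwa [hij] at h2
    · exact absurd h1 (C.ne j i y hij)
  · intro h
    refine ⟨i, rfl, h, ?_⟩
    rw [ne_eq, hm i y]
    exact h

theorem sub_le (m : X → Fin 3) : sub C m ≤ C.graph := by
  rintro y z ⟨i, h, -, -⟩
  exact ⟨i, h⟩

theorem sub_nbr {m : X → Fin 3} (hm : IsM C m) (y : X) :
    (sub C m).neighborSet y = {C.a (m y + 1) y, C.a (m y + 2) y} := by
  ext z
  rw [SimpleGraph.mem_neighborSet]
  constructor
  · rintro ⟨i, rfl, h, -⟩
    have h1 : ∀ k i : Fin 3, k ≠ i → i = k + 1 ∨ i = k + 2 := by decide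
    rcases h1 _ _ h with h2 | h2
    · left; rw [h2]
    · right; rw [h2]; rfl
  · have h1 : ∀ k : Fin 3, k ≠ k + 1 ∧ k ≠ k + 2 := by decide
    rintro (rfl | rfl)
    · exact (sub_adj_a C hm _ y).2 (h1 _).1
    · exact (sub_adj_a C hm _ y).2 (h1 _).2

theorem sub_ncard {m : X → Fin 3} (hm : IsM C m) (y : X) :
    ((sub C m).neighborSet y).ncard = 2 := by
  rw [sub_nbr C hm]
  apply Set.ncard_pair
  have h1 : ∀ k : Fin 3, k + 1 ≠ k + 2 := by decide
  exact C.ne _ _ y (h1 _)

theorem sub_inj {m m' : X → Fin 3} (hm : IsM C m) (hm' : IsM C m') (h : sub C m = sub C m') :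
    m = m' := by
  funext y
  by_contra hne
  have h1 := (sub_adj_a C hm (m y) y)
  have h2 := (sub_adj_a C hm' (m y) y)
  rw [h] at h1
  rw [h1] at h2
  have h3 := h2.2 (fun h4 => hne h4.symm)
  exact h3 rfl

theorem exists_m [Finite X] (H : SimpleGraph X) (hH : H ≤ C.graph)
    (h2 : ∀ v, (H.neighborSet v).ncard = 2) : ∃ m, IsM C m ∧ sub C m = H := by
  classical
  have hfin : ∀ v, (H.neighborSet v).Finite := fun v => Set.toFinite _
  have key : ∀ v, ∃ i, ∀ j, H.Adj v (C.a j v) ↔ i ≠ j := by
    intro v
    have hsub : H.neighborSet v ⊆ {C.a 0 v, C.a 1 v, C.a 2 v} := by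
      intro z hz
      obtain ⟨i, hi⟩ := hH hz
      fin_cases i
      · left; exact hi.symm
      · right; left; exact hi.symm
      · right; right; exact hi.symm
    have d01 : C.a 0 v ≠ C.a 1 v := C.ne 0 1 v (by decide)
    have d02 : C.a 0 v ≠ C.a 2 v := C.ne 0 2 v (by decide)
    have d12 : C.a 1 v ≠ C.a 2 v := C.ne 1 2 v (by decide)
    have hnot : ¬ (H.Adj v (C.a 0 v) ∧ H.Adj v (C.a 1 v) ∧ H.Adj v (C.a 2 v)) := by
      rintro ⟨h3, h4, h5⟩
      have h6 : ({C.a 0 v, C.a 1 v, C.a 2 v} : Set X) ⊆ H.neighborSet v := by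
        rintro z (rfl | rfl | rfl)
        · exact h3
        · exact h4
        · exact h5
      have h7 := Set.ncard_le_ncard h6 (hfin v)
      have h8 : ({C.a 0 v, C.a 1 v, C.a 2 v} : Set X).ncard = 3 := by
        rw [Set.ncard_eq_toFinset_card', Set.toFinset_insert, Set.toFinset_insert,
          Set.toFinset_singleton]
        rw [Finset.card_insert_of_notMem (by simp [d01, d02]),
          Finset.card_insert_of_notMem (by simp [d12]), Finset.card_singleton]
      rw [h2 v, h8] at h7
      omega
    have hone : ∀ z : X, ¬ H.neighborSet v ⊆ {z} := by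
      intro z hz
      have h7 := Set.ncard_le_ncard hz (Set.finite_singleton z)
      rw [h2 v, Set.ncard_singleton] at h7
      omega
    by_cases b0 : H.Adj v (C.a 0 v)
    · by_cases b1 : H.Adj v (C.a 1 v)
      · have b2 : ¬ H.Adj v (C.a 2 v) := fun h => hnot ⟨b0, b1, h⟩
        refine ⟨2, fun j => ?_⟩
        fin_cases j
        · exact ⟨fun _ => by decide, fun _ => b0⟩
        · exact ⟨fun _ => by decide, fun _ => b1⟩
        · exact ⟨fun h => absurd h b2, fun h => absurd rfl h⟩
      · have b2 : H.Adj v (C.a 2 v) := by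
          by_contra b2
          apply hone (C.a 0 v)
          intro z hz
          rcases hsub hz with rfl | rfl | rfl
          · rfl
          · exact absurd hz b1
          · exact absurd hz b2
        refine ⟨1, fun j => ?_⟩
        fin_cases j
        · exact ⟨fun _ => by decide, fun _ => b0⟩
        · exact ⟨fun h => absurd h b1, fun h => absurd rfl h⟩
        · exact ⟨fun _ => by decide, fun _ => b2⟩
    · have b1 : H.Adj v (C.a 1 v) := by
        by_contra b1
        apply hone (C.a 2 v)
        intro z hz
        rcases hsub hz with rfl | rfl | rfl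
        · exact absurd hz b0
        · exact absurd hz b1
        · rfl
      have b2 : H.Adj v (C.a 2 v) := by
        by_contra b2
        apply hone (C.a 1 v)
        intro z hz
        rcases hsub hz with rfl | rfl | rfl
        · exact absurd hz b0
        · rfl
        · exact absurd hz b2
      refine ⟨0, fun j => ?_⟩
      fin_cases j
      · exact ⟨fun h => absurd h b0, fun h => absurd rfl h⟩
      · exact ⟨fun _ => by decide, fun _ => b1⟩
      · exact ⟨fun _ => by decide, fun _ => b2⟩
  choose m hm using key
  have hM : IsM C m := by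
    intro i y
    have h3 := hm y i
    have h4 := hm (C.a i y) i
    rw [C.inv, H.adj_comm, h3] at h4
    constructor
    · intro h; by_contra h5; exact h4.1 h5 h
    · intro h; by_contra h5; exact h4.2 h5 h
  refine ⟨m, hM, ?_⟩
  ext y z
  constructor
  · rintro ⟨i, rfl, h, -⟩
    exact (hm y i).2 h
  · intro h
    obtain ⟨i, rfl⟩ := hH h
    exact (sub_adj_a C hM i y).2 ((hm y i).1 h)

theorem ham_eq [Finite X] :
    ham C.graph = {m : X → Fin 3 | IsM C m ∧ (sub C m).Connected}.ncard := by
  unfold ham
  rw [← Set.InjOn.ncard_image (f := sub C)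
    (s := {m : X → Fin 3 | IsM C m ∧ (sub C m).Connected})]
  · congr 1
    ext H
    constructor
    · rintro ⟨h1, h2, h3⟩
      obtain ⟨m, hm, rfl⟩ := exists_m C H h1 h3
      exact ⟨m, ⟨hm, h2⟩, rfl⟩
    · rintro ⟨m, ⟨hm, h⟩, rfl⟩
      exact ⟨sub_le C m, h, sub_ncard C hm⟩
  · rintro m ⟨hm, -⟩ m' ⟨hm', -⟩ h
    exact sub_inj C hm hm' h

end Missing

/-! ### the insertion -/

section Ins

variable {X : Type} [DecidableEq X] (C : CG X) (x₀ : X)

/-- extension of the missing colours -/
def ext (m : X → Fin 3) (t : Fin 3) : X ⊕ (Fin 3 × Bool) → Fin 3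
  | .inl y => if y = x₀ then t else m y
  | .inr (s, false) => if s = third t (m x₀) then t else m x₀
  | .inr (s, true) => if s = third t (m x₀) then m x₀ else t

theorem ins_a (i : Fin 3) (x : X ⊕ (Fin 3 × Bool)) : (C.ins x₀).a i x = C.insA x₀ i x := rfl

theorem ext_isM {m : X → Fin 3} (hm : IsM C m) (t : Fin 3) : IsM (C.ins x₀) (ext x₀ m t) := by
  intro i y
  rw [ins_a]
  match y with
  | .inl y =>
    by_cases h : y = x₀
    · subst h
      have h1 : ∀ i t k : Fin 3, (if i = third t k then k else t) = i ↔ t = i := by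
        unfold third; decide
      simp only [insA, if_true, ext]
      exact h1 i t (m y)
    · by_cases h' : y = C.a i x₀
      · subst h'
        have h1 : ∀ i t k : Fin 3, (if i = third t k then t else k) = i ↔ k = i := by
          unfold third; decide
        simp only [insA, if_neg h, if_true, ext]
        rw [h1 i t (m x₀), hm i x₀]
      · have h2 : C.a i y ≠ x₀ := by
          intro h2; apply h'; rw [← h2, C.inv]
        simp only [insA, if_neg h, if_neg h', ext, if_neg h2]
        exact hm i y
  | .inr (s, false) =>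
    by_cases h : s = i
    · subst h
      have h1 : C.a s x₀ ≠ x₀ := a_ne C s x₀
      have h2 : ∀ i t k : Fin 3, (if i = third t k then t else k) = i ↔ k = i := by
        unfold third; decide
      simp only [insA, if_true, ext, if_neg h1]
      rw [h2 s t (m x₀), hm s x₀]
    · have h2 : ∀ i s t k : Fin 3, s ≠ i → ((if third i s = third t k then k else t) = i ↔
          (if s = third t k then t else k) = i) := by
        unfold third; decide
      simp only [insA, if_neg h, ext]
      exact h2 i s t (m x₀) h
  | .inr (s, true) =>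
    by_cases h : s = i
    · subst h
      have h1 : ∀ i t k : Fin 3, (if i = third t k then k else t) = i ↔ t = i := by
        unfold third; decide
      simp only [insA, if_true, ext]
      exact (h1 s t (m x₀)).symm
    · have h2 : ∀ i s t k : Fin 3, s ≠ i → ((if third i s = third t k then t else k) = i ↔
          (if s = third t k then k else t) = i) := by
        unfold third; decide
      simp only [insA, if_neg h, ext]
      exact h2 i s t (m x₀) h

/-- the projection to the old graph -/
def pr : X ⊕ (Fin 3 × Bool) → X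
  | .inl y => y
  | .inr _ => x₀

/-- the parent of an inner vertex -/
def par (k t : Fin 3) : Fin 3 × Bool → Option (Fin 3 × Bool)
  | (s, true) => if s = t then some (k, false) else none
  | (s, false) => if s = t then some (k, true) else if s = k then some (third t k, true)
      else some (t, true)

/-- the distance of an inner vertex to `x₀` -/
def rk (k t : Fin 3) : Option (Fin 3 × Bool) → ℕ
  | none => 0
  | some (s, true) => if s = t then 3 else 1
  | some (s, false) => if s = t then 2 else if s = k then 2 else 4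

/-- the inner vertices -/
def emb : Option (Fin 3 × Bool) → X ⊕ (Fin 3 × Bool)
  | none => .inl x₀
  | some z => .inr z

/-- the colour of the edge to the parent -/
def pc (k t : Fin 3) : Fin 3 × Bool → Fin 3
  | (s, true) => if s = t then third t k else s
  | (s, false) => if s = t then third t k else if s = k then t else k

theorem rk_par : ∀ k t : Fin 3, t ≠ k → ∀ z : Fin 3 × Bool, rk k t (par k t z) < rk k t (some z) := by
  decide

theorem par_adj {m : X → Fin 3} (hm : IsM C m) {t : Fin 3} (ht : t ≠ m x₀) (z : Fin 3 × Bool) :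
    (sub (C.ins x₀) (ext x₀ m t)).Adj (.inr z) (emb x₀ (par (m x₀) t z)) := by
  have hE := ext_isM C x₀ hm t
  have h1 : C.insA x₀ (pc (m x₀) t z) (.inr z) = emb x₀ (par (m x₀) t z) := by
    obtain ⟨s, b⟩ := z
    cases b
    · have key : ∀ k t s : Fin 3, t ≠ k → s ≠ pc k t (s, false) ∧
          par k t (s, false) = some (third (pc k t (s, false)) s, true) := by decide
      obtain ⟨k1, k2⟩ := key (m x₀) t s ht
      rw [k2]
      simp only [insA, if_neg k1, emb]
    · have key : ∀ k t s : Fin 3, t ≠ k → (s ≠ pc k t (s, true) ∧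
          par k t (s, true) = some (third (pc k t (s, true)) s, false)) ∨
          (s = pc k t (s, true) ∧ par k t (s, true) = none) := by decide
      rcases key (m x₀) t s ht with ⟨k1, k2⟩ | ⟨k1, k2⟩
      · rw [k2]
        simp only [insA, if_neg k1, emb]
      · rw [k2, ← k1]
        simp only [insA, if_true, emb]
  rw [← h1]
  refine (sub_adj_a (C.ins x₀) hE _ _).2 ?_
  obtain ⟨s, b⟩ := z
  cases b
  · have key : ∀ k t s : Fin 3, t ≠ k → (if s = third t k then t else k) ≠ pc k t (s, false) := by
      decide
    exact key (m x₀) t s ht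
  · have key : ∀ k t s : Fin 3, t ≠ k → (if s = third t k then k else t) ≠ pc k t (s, true) := by
      decide
    exact key (m x₀) t s ht

theorem inner {m : X → Fin 3} (hm : IsM C m) {t : Fin 3} (ht : t ≠ m x₀) :
    ∀ (n : ℕ) (v : Option (Fin 3 × Bool)), rk (m x₀) t v ≤ n →
      (sub (C.ins x₀) (ext x₀ m t)).Reachable (.inl x₀) (emb x₀ v) := by
  intro n
  induction n with
  | zero =>
    intro v hv
    match v with
    | none => exact SimpleGraph.Reachable.refl _
    | some z =>
      have := rk_par (m x₀) t ht z
      omega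
  | succ n ih =>
    intro v hv
    match v with
    | none => exact SimpleGraph.Reachable.refl _
    | some z =>
      have h1 := rk_par (m x₀) t ht z
      have h2 := ih (par (m x₀) t z) (by omega)
      exact h2.trans (par_adj C x₀ hm ht z).symm.reachable

theorem conn_ext {m : X → Fin 3} (hm : IsM C m) {t : Fin 3} (ht : t ≠ m x₀)
    (h : (sub C m).Connected) : (sub (C.ins x₀) (ext x₀ m t)).Connected := by
  have hE := ext_isM C x₀ hm t
  have hin : ∀ z : Fin 3 × Bool, (sub (C.ins x₀) (ext x₀ m t)).Reachable (.inl x₀) (.inr z) :=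
    fun z => inner C x₀ hm ht _ (some z) le_rfl
  have hkey : ∀ i t k : Fin 3, (if i = third t k then t else k) = i ↔ k = i := by
    unfold third; decide
  have hout : ∀ i : Fin 3, m x₀ ≠ i → (sub (C.ins x₀) (ext x₀ m t)).Adj (.inr (i, false))
      (.inl (C.a i x₀)) := by
    intro i hi
    have h1 : (C.ins x₀).a i (.inr (i, false)) = .inl (C.a i x₀) := by
      rw [ins_a]; simp [insA]
    rw [← h1]
    refine (sub_adj_a _ hE _ _).2 ?_
    show (if i = third t (m x₀) then t else m x₀) ≠ i
    rw [ne_eq, hkey]
    exact hi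
  have hstep : ∀ y z : X, (sub C m).Adj y z →
      (sub (C.ins x₀) (ext x₀ m t)).Reachable (.inl y) (.inl z) := by
    rintro y z ⟨i, rfl, h1, h2⟩
    by_cases hy : y = x₀
    · subst hy
      exact (hin (i, false)).trans (hout i h1).reachable
    · by_cases hy' : y = C.a i x₀
      · subst hy'
        rw [C.inv] at h2 ⊢
        exact ((hin (i, false)).trans (hout i h2).reachable).symm
      · have h3 : (C.ins x₀).a i (.inl y) = .inl (C.a i y) := by
          rw [ins_a]; simp [insA, hy, hy']
        have h4 : (sub (C.ins x₀) (ext x₀ m t)).Adj (.inl y) (.inl (C.a i y)) := by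
          rw [← h3]
          refine (sub_adj_a _ hE _ _).2 ?_
          show (if y = x₀ then t else m y) ≠ i
          rw [if_neg hy]
          exact h1
        exact h4.reachable
  have hreach : ∀ y : X, (sub (C.ins x₀) (ext x₀ m t)).Reachable (.inl x₀) (.inl y) := by
    intro y
    obtain ⟨w⟩ := h.preconnected x₀ y
    have hw : ∀ a b : X, (sub C m).Walk a b →
        (sub (C.ins x₀) (ext x₀ m t)).Reachable (.inl a) (.inl b) := by
      intro a b p
      induction p with
      | nil => exact SimpleGraph.Reachable.refl _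
      | cons hadj _ ih => exact (hstep _ _ hadj).trans ih
    exact hw _ _ w
  have hall : ∀ v, (sub (C.ins x₀) (ext x₀ m t)).Reachable (.inl x₀) v := by
    intro v
    match v with
    | .inl y => exact hreach y
    | .inr z => exact hin z
  have : Nonempty (X ⊕ (Fin 3 × Bool)) := ⟨.inl x₀⟩
  exact ⟨fun v w => (hall v).symm.trans (hall w)⟩

theorem conn_res {m : X → Fin 3} (hm : IsM C m) {t : Fin 3}
    (h : (sub (C.ins x₀) (ext x₀ m t)).Connected) : (sub C m).Connected := by
  have hstep : ∀ v w, (sub (C.ins x₀) (ext x₀ m t)).Adj v w →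
      (sub C m).Reachable (pr x₀ v) (pr x₀ w) := by
    rintro v w ⟨i, rfl, h1, h2⟩
    rw [ins_a] at h2 ⊢
    match v with
    | .inl y =>
      by_cases hy : y = x₀
      · subst hy
        simp only [insA, if_true, pr]
        exact SimpleGraph.Reachable.refl _
      · have h3 : m y ≠ i := by
          have : ext x₀ m t (.inl y) = m y := by simp [ext, hy]
          rwa [this] at h1
        have h4 := (sub_adj_a C hm i y).2 h3
        by_cases hy' : y = C.a i x₀
        · simp only [insA, if_neg hy, if_pos hy', pr]
          rw [hy', C.inv, ← hy'] at h4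
          exact h4.reachable
        · simp only [insA, if_neg hy, if_neg hy', pr]
          exact h4.reachable
    | .inr (s, true) =>
      by_cases hs : s = i
      · simp only [insA, if_pos hs, pr]
        exact SimpleGraph.Reachable.refl _
      · simp only [insA, if_neg hs, pr]
        exact SimpleGraph.Reachable.refl _
    | .inr (s, false) =>
      by_cases hs : s = i
      · subst hs
        simp only [insA, if_true, pr] at h2 ⊢
        have h3 : ext x₀ m t (.inl (C.a s x₀)) = m (C.a s x₀) := by
          simp [ext, a_ne C s x₀]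
        rw [h3, ne_eq, hm s x₀] at h2
        exact ((sub_adj_a C hm s x₀).2 h2).reachable
      · simp only [insA, if_neg hs, pr]
        exact SimpleGraph.Reachable.refl _
  have hall : ∀ y z : X, (sub C m).Reachable y z := by
    intro y z
    obtain ⟨w⟩ := h.preconnected (.inl y) (.inl z)
    have : ∀ v w, (sub (C.ins x₀) (ext x₀ m t)).Walk v w →
        (sub C m).Reachable (pr x₀ v) (pr x₀ w) := by
      intro v w p
      induction p with
      | nil => exact SimpleGraph.Reachable.refl _
      | cons hadj _ ih => exact (hstep _ _ hadj).trans ih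
    exact this _ _ w
  have : Nonempty X := ⟨x₀⟩
  exact ⟨hall⟩

set_option synthInstance.maxSize 1000 in
theorem third_surj {f : Fin 3 → Bool → Fin 3} {t : Fin 3}
    (h1 : ∀ s, f s true = s ↔ t = s)
    (h2 : ∀ s i, s ≠ i → (f s true = i ↔ f (third i s) false = i)) :
    ∃ k, ∀ s, f s false = (if s = third t k then t else k) ∧
      f s true = (if s = third t k then k else t) := by
  have key : ∀ t a b c d e g : Fin 3,
      ((a = 0 ↔ t = 0) ∧ (b = 1 ↔ t = 1) ∧ (c = 2 ↔ t = 2)) →
      ((a = 1 ↔ g = 1) ∧ (a = 2 ↔ e = 2) ∧ (b = 0 ↔ g = 0) ∧ (b = 2 ↔ d = 2) ∧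
        (c = 0 ↔ e = 0) ∧ (c = 1 ↔ d = 1)) →
      ∃ k, (d = (if 0 = third t k then t else k) ∧ a = (if 0 = third t k then k else t)) ∧
        (e = (if 1 = third t k then t else k) ∧ b = (if 1 = third t k then k else t)) ∧
        (g = (if 2 = third t k then t else k) ∧ c = (if 2 = third t k then k else t)) := by
    unfold third; decide
  obtain ⟨k, k1, k2, k3⟩ := key t (f 0 true) (f 1 true) (f 2 true) (f 0 false) (f 1 false)
    (f 2 false) ⟨h1 0, h1 1, h1 2⟩
    ⟨h2 0 1 (by decide), h2 0 2 (by decide), h2 1 0 (by decide), h2 1 2 (by decide),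
      h2 2 0 (by decide), h2 2 1 (by decide)⟩
  refine ⟨k, fun s => ?_⟩
  fin_cases s
  · exact k1
  · exact k2
  · exact k3

theorem surj_ext {m' : X ⊕ (Fin 3 × Bool) → Fin 3} (hm' : IsM (C.ins x₀) m')
    (hc : (sub (C.ins x₀) m').Connected) :
    ∃ m t, IsM C m ∧ t ≠ m x₀ ∧ ext x₀ m t = m' := by
  obtain ⟨k, hk⟩ := third_surj (f := fun s b => m' (.inr (s, b))) (t := m' (.inl x₀))
    (by
      intro s
      have := hm' s (.inl x₀)
      rw [ins_a] at this
      simpa [insA] using this)
    (by
      intro s i hs
      have := hm' i (.inr (s, true))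
      rw [ins_a] at this
      simp only [insA, if_neg hs] at this
      exact this.symm)
  have hkey : ∀ i t k : Fin 3, (if i = third t k then t else k) = i ↔ k = i := by
    unfold third; decide
  refine ⟨fun y => if y = x₀ then k else m' (.inl y), m' (.inl x₀), ?_, ?_, ?_⟩
  · intro i y
    by_cases hy : y = x₀
    · subst hy
      have h1 := hm' i (.inr (i, false))
      rw [ins_a] at h1
      simp only [insA, if_true] at h1
      rw [(hk i).1, hkey] at h1
      simp only [if_neg (a_ne C i y), if_true]
      exact h1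
    · by_cases hy' : y = C.a i x₀
      · have h1 := hm' i (.inl y)
        rw [ins_a] at h1
        simp only [insA, if_neg hy, if_pos hy'] at h1
        rw [(hk i).1, hkey] at h1
        have h2 : C.a i y = x₀ := by rw [hy', C.inv]
        simp only [h2, if_true, if_neg hy]
        exact h1
      · have h2 : C.a i y ≠ x₀ := by
          intro h2; apply hy'; rw [← h2, C.inv]
        have h1 := hm' i (.inl y)
        rw [ins_a] at h1
        simp only [insA, if_neg hy, if_neg hy'] at h1
        simp only [if_neg h2, if_neg hy]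
        exact h1
  · simp only [if_true]
    intro ht
    -- the 4-cycle
    have hp : ∀ s, m' (.inr (s, false)) = k := by
      intro s
      rw [(hk s).1, ht]
      split_ifs <;> rfl
    have hq : ∀ s, m' (.inr (s, true)) = k := by
      intro s
      rw [(hk s).2, ht]
      split_ifs <;> rfl
    have hZ : ∀ v w, (sub (C.ins x₀) m').Adj v w →
        (v = .inl x₀ ∨ (∃ s, s ≠ k ∧ v = .inr (s, true)) ∨ v = .inr (k, false)) →
        (w = .inl x₀ ∨ (∃ s, s ≠ k ∧ w = .inr (s, true)) ∨ w = .inr (k, false)) := by
      rintro v w ⟨i, rfl, h1, h2⟩ hv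
      rw [ins_a]
      rcases hv with rfl | ⟨s, hs, rfl⟩ | rfl
      · rw [ht] at h1
        right; left
        exact ⟨i, h1.symm, by simp [insA]⟩
      · rw [hq] at h1
        by_cases hsi : s = i
        · left
          simp [insA, hsi]
        · right; right
          have h3 : ∀ i s k : Fin 3, s ≠ i → s ≠ k → k ≠ i → third i s = k := by
            unfold third; decide
          simp only [insA, if_neg hsi]
          rw [h3 i s k hsi hs h1]
      · rw [hp] at h1
        right; left
        refine ⟨third i k, ?_, ?_⟩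
        · have h3 : ∀ i k : Fin 3, k ≠ i → third i k ≠ k := by
            unfold third; decide
          exact h3 i k h1
        · simp only [insA, if_neg h1]
    have hwalk : ∀ v w, (sub (C.ins x₀) m').Walk v w →
        (v = .inl x₀ ∨ (∃ s, s ≠ k ∧ v = .inr (s, true)) ∨ v = .inr (k, false)) →
        (w = .inl x₀ ∨ (∃ s, s ≠ k ∧ w = .inr (s, true)) ∨ w = .inr (k, false)) := by
      intro v w p
      induction p with
      | nil => exact id
      | cons hadj _ ih => exact fun hv => ih (hZ _ _ hadj hv)
    obtain ⟨w⟩ := hc.preconnected (.inl x₀) (.inr (k + 1, false))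
    rcases hwalk _ _ w (Or.inl rfl) with h | ⟨s, -, h⟩ | h
    · exact Sum.inr_ne_inl h
    · have := (Prod.mk.inj (Sum.inr.inj h)).2
      cases this
    · have h3 := (Prod.mk.inj (Sum.inr.inj h)).1
      have h4 : ∀ k : Fin 3, k + 1 ≠ k := by decide
      exact h4 k h3
  · funext v
    match v with
    | .inl y =>
      by_cases hy : y = x₀
      · simp [ext, hy]
      · simp [ext, hy]
    | .inr (s, false) =>
      simp only [ext, if_true]
      exact (hk s).1.symm
    | .inr (s, true) =>
      simp only [ext, if_true]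
      exact (hk s).2.symm

theorem ext_inj {m m' : X → Fin 3} {t t' : Fin 3} (h : ext x₀ m t = ext x₀ m' t') :
    m = m' ∧ t = t' := by
  have ht : t = t' := by
    have := congrFun h (.inl x₀)
    simpa [ext] using this
  subst ht
  refine ⟨?_, rfl⟩
  have key : ∀ t k k' : Fin 3,
      ((if (0 : Fin 3) = third t k then t else k) = (if 0 = third t k' then t else k')) →
      ((if (1 : Fin 3) = third t k then t else k) = (if 1 = third t k' then t else k')) →
      ((if (2 : Fin 3) = third t k then t else k) = (if 2 = third t k' then t else k')) →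
      k = k' := by
    unfold third; decide
  funext y
  by_cases hy : y = x₀
  · subst hy
    exact key t (m y) (m' y) (congrFun h (.inr (0, false))) (congrFun h (.inr (1, false)))
      (congrFun h (.inr (2, false)))
  · have := congrFun h (.inl y)
    simpa [ext, hy] using this

/-- the two extensions -/
def two (b : Bool) : Fin 3 := if b then 1 else 2

end Ins

/-- Module THA. -/
theorem tha : ThaStmt := by
  intro X _ _ C x₀ _
  rw [ham_eq, ham_eq]
  have himg : {m : X ⊕ (Fin 3 × Bool) → Fin 3 | IsM (C.ins x₀) m ∧
      (sub (C.ins x₀) m).Connected} =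
      (fun p : (X → Fin 3) × Bool => ext x₀ p.1 (p.1 x₀ + two p.2)) ''
        ({m : X → Fin 3 | IsM C m ∧ (sub C m).Connected} ×ˢ Set.univ) := by
    ext m'
    constructor
    · rintro ⟨h1, h2⟩
      obtain ⟨m, t, hm, ht, rfl⟩ := surj_ext C x₀ h1 h2
      have h3 : ∀ t k : Fin 3, t ≠ k → ∃ b, k + two b = t := by
        unfold two; decide
      obtain ⟨b, hb⟩ := h3 t (m x₀) ht
      refine ⟨(m, b), ⟨⟨hm, conn_res C x₀ hm h2⟩, trivial⟩, ?_⟩
      show ext x₀ m (m x₀ + two b) = _
      rw [hb]
    · rintro ⟨⟨m, b⟩, ⟨⟨hm, h2⟩, -⟩, rfl⟩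
      have h3 : ∀ (k : Fin 3) (b : Bool), k + two b ≠ k := by
        unfold two; decide
      exact ⟨ext_isM C x₀ hm _, conn_ext C x₀ hm (h3 _ _) h2⟩
  rw [himg, Set.InjOn.ncard_image, Set.ncard_prod, Set.ncard_univ, Nat.card_eq_fintype_card,
    Fintype.card_bool, mul_comm]
  rintro ⟨m, b⟩ - ⟨m', b'⟩ - h
  obtain ⟨h1, h2⟩ := ext_inj x₀ h
  simp only at h1 h2
  subst h1
  have h3 : ∀ (k : Fin 3) (b b' : Bool), k + two b = k + two b' → b = b' := by
    unfold two; decide
  rw [h3 _ _ _ h2]

end Pool.Agent.HMC.H75
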